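import Mathlib
import Pool.Agent.N303.IE.K

/-!
# MP_286868_an: isometric extensions over an intermediate W*-dynamical system

Let `S` be a system `(A, μ, α)` with subsystems `F ⊆ G ⊆ A`. If `A` is an isometric extension of
`F`, then `A` is an isometric extension of `G`.

Idea: a module `V` of finite trace over `F` is a closed direct sum of cyclic modules generated by
vectors `v = v p` with `Σ μ(p)` finite. The right `G`-module generated by `(1 - e_G) V` is then
generated by the vectors `(1 - e_G) v`, and the closed `G`-module generated by a vector `u = u p`
has trace at most `μ(p)`: take the polar decomposition of the off-diagonal entry of the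
projection onto the closure of the graph of the (unbounded, closable) map `p g Ω ↦ u g`.
-/

set_option autoImplicit false

namespace Pool.Agent.Results.MP_286868_an.Intermediate

open Pool.Agent.N303.IE

universe u

/-- If `A` is an isometric extension of the subsystem `F`, then it is an isometric extension of
every intermediate subsystem `G`. -/
theorem result {H : Type u} [NormedAddCommGroup H] [InnerProductSpace ℂ H] [CompleteSpace H]
    (S : Sys H) (F G : Sub S) (hFG : ∀ f ∈ F.F, f ∈ G.F) (τF : BTrace F) (τG : BTrace G)
    (h : IsometricExt τF) : IsometricExt τG :=
  main hFG τF τG h

end Pool.Agent.Results.MP_286868_an.Intermediate
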